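import Pool.Agent.TH150.Theta.Main

/-!
# The theta map `Th : 𝒜_g(2,4) → ℙ^(2^g - 1)` is not an embedding for any `g ≥ 4`

At the point `τ₀ = i · 1_g` the stabiliser in `Γ_g(2,4)` is the group of the diagonal sign
matrices `D`, acting by `τ ↦ D τ D`.  Hence the local ring of `𝒜_g(2,4)` at the class `x` of `τ₀`
is the ring of the convergent power series in the entries of `τ - τ₀` in which only the
monomials occur whose (multi)graph on the vertices `1, …, g` has all degrees even.  The maximal
ideal modulo its square has as basis the classes of the irreducible monomials of this kind: the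
`τ_ii - i`, the `τ_ij ^ 2` and the products along the simple cycles.  There is one of them for each
non-empty subset of the set of vertices, and there are two more for each subset with four
elements, so that there are more than `2 ^ g - 1` of them if `g ≥ 4`.  As projective space
has dimension `2 ^ g - 1`, the pull-back by `Th` cannot map the local ring of projective space at
`Th x` onto the local ring of `𝒜_g(2,4)` at `x`.
-/

set_option autoImplicit false

namespace Pool.Agent.Results.MP_2bf81a_ag.ThetaMapNotEmbedding

open Topology Pool.Agent.TH150.Theta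

/-- Let `g ≥ 4`.  There are a point `τ₀` of `ℋ_g` and a function `f` which is holomorphic on an
open neighbourhood `V` of its class in `𝒜_g(2,4)` such that `f` is not of the form `F ∘ Th` near
this class for a holomorphic function `F` on an open subset of projective space.  For no open
neighbourhood `W` of this class is the restriction of `Th` to `W` an isomorphism of complex
analytic spaces onto its image; in particular (`W = 𝒜_g(2,4)`), `Th` is not an embedding. -/
theorem result (g : ℕ) (hg : 4 ≤ g) :
    ∃ τ₀ : Siegel g,
      (∃ (V : Set (A24 g)) (f : A24 g → ℂ), IsOpen V ∧ proj τ₀ ∈ V ∧ HolOn V f ∧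
        ∀ (P : Set (PN g)) (F : PN g → ℂ), IsOpenP P → HolOnP P F → thetaMap τ₀ ∈ P →
          ¬ ∀ᶠ σ : Siegel g in 𝓝 τ₀, f (proj σ) = F (thetaMap σ)) ∧
      ∀ W : Set (A24 g), IsOpen W → proj τ₀ ∈ W → ¬ IsEmbeddingOn W := by
  obtain ⟨f, hf, hnot⟩ := exists_germ hg
  exact ⟨basePt g, ⟨nbhd g, f, isOpen_nbhd g, ⟨_, basePt_mem g, rfl⟩, hf, hnot⟩,
    fun W hW hx => not_embedding hg hW hx⟩

end Pool.Agent.Results.MP_2bf81a_ag.ThetaMapNotEmbedding
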